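import Mathlib
import Pool.Agent.Helper15.JD.Cor
import Pool.Agent.Helper15.GT.RFin
import Pool.Agent.Helper67.JD.Orb

/-!
# JD: Voisin's property for cycles on a projective model
-/

set_option linter.unusedSectionVars false

namespace Pool.Agent.Helper79.JD

open VC VF Function Pool.Agent.Helper21.TO Pool.Agent.Helper21.TB Pool.Agent.Helper15.GT Pool.Agent.Helper15.KP
open Pool.Agent.Helper15.JC Pool.Agent.Helper15.JD

universe u

lemma deg_lin {α β : Type*} (f : α → β →₀ ℤ) (c : α →₀ ℤ) (h : ∀ x, (f x).sum (fun _ n => n) = 0) :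
    (Finsupp.linearCombination ℤ f c).sum (fun _ n => n) = 0 := by
  classical
  have key : ∀ x : β →₀ ℤ, x.sum (fun _ n => n) = Finsupp.linearCombination ℤ (fun _ : β => (1 : ℤ)) x := by
    intro x
    rw [Finsupp.linearCombination_apply]
    refine Finsupp.sum_congr fun _ _ => ?_
    rw [smul_eq_mul, mul_one]
  rw [key, Finsupp.linearCombination_apply ℤ c, Finsupp.sum, map_sum]
  refine Finset.sum_eq_zero fun x _ => ?_
  rw [map_smul, ← key, h, smul_zero]

theorem apply_of (hOrb : StmtOrb.{u}) : StmtApply.{u} := by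
  classical
  intro k F _ _ _ _ _ p hV M ξ hξ n hn a ha0 haJ
  have hW : ∀ s : (proj k (van k ξ)).Pt, ∃ w : RPl k (AlgebraicClosure F), evP ξ hξ (w.comap (iF k F)) = s := by
    intro s
    obtain ⟨w0, hw0⟩ := exists_rpl_evP ξ hξ s
    obtain ⟨w, hw⟩ := exists_lift (iF k F) w0
    exact ⟨w, by rw [hw, hw0]⟩
  choose W hW using hW
  have hmap : ∀ l, a l = ((a l).mapDomain W).mapDomain (fun w => evP ξ hξ (w.comap (iF k F))) := by
    intro l
    rw [← Finsupp.mapDomain_comp]
    have e : (fun w : RPl k (AlgebraicClosure F) => evP ξ hξ (w.comap (iF k F))) ∘ W = id := by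
      funext s
      exact hW s
    rw [e, Finsupp.mapDomain_id]
  refine hV M ξ hξ n hn a fun l => ⟨(a l).mapDomain W, ⟨?_, ?_⟩, hmap l⟩
  · rw [deg_mapDomain, ha0]
  · intro K _ _ hK c hc
    have hT : (c.sum fun σ n => n • ((a l).mapDomain W).mapDomain (fun w => w.pl hK σ)) =
        Finsupp.linearCombination ℤ (fun σ : K →ₐ[k] AlgebraicClosure F =>
          ((a l).mapDomain W).mapDomain (fun w => w.pl hK σ)) c := by
      rw [Finsupp.linearCombination_apply]
    rw [hT]
    by_cases hg : IsGenus k K 0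
    · refine mem_rat_of_genus_zero hK hg _ (deg_lin _ _ fun σ => ?_)
      rw [deg_mapDomain, deg_mapDomain, ha0]
    · have h1 := hOrb k F K hK c hc
      have h2 : AddSubgroup.closure {o : (K →ₐ[k] AlgebraicClosure F) →₀ ℤ | ∃ (N : Type u) (_ : Field N)
          (_ : Algebra k N) (i : F →ₐ[k] N) (_ : (i : F →+* N).Finite) (j : K →ₐ[k] N),
          Finite {σ : N →ₐ[k] AlgebraicClosure F // ∀ z, σ (i z) = iF k F z} ∧
          o = ∑ᶠ σ : {σ : N →ₐ[k] AlgebraicClosure F // ∀ z, σ (i z) = iF k F z}, Finsupp.single (σ.1.comp j) 1} ≤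
          (curve hK).Rat.comap (Finsupp.linearCombination ℤ (fun σ : K →ₐ[k] AlgebraicClosure F =>
            ((a l).mapDomain W).mapDomain (fun w => w.pl hK σ))).toAddMonoidHom := by
        rw [AddSubgroup.closure_le]
        rintro o ⟨N, _, _, i, hi, j, hfin, rfl⟩
        obtain ⟨θ, hθ, hθa⟩ := haJ N i hi K hK j hg
        let _ := Fintype.ofFinite {σ : N →ₐ[k] AlgebraicClosure F // ∀ z, σ (i z) = iF k F z}
        change Finsupp.linearCombination ℤ (fun σ : K →ₐ[k] AlgebraicClosure F =>
            ((a l).mapDomain W).mapDomain (fun w => w.pl hK σ)) _ ∈ (curve hK).Rat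
        rw [finsum_eq_sum_of_fintype, map_sum]
        have h3 : ∀ σ : {σ : N →ₐ[k] AlgebraicClosure F // ∀ z, σ (i z) = iF k F z},
            Finsupp.linearCombination ℤ (fun σ : K →ₐ[k] AlgebraicClosure F =>
              ((a l).mapDomain W).mapDomain (fun w => w.pl hK σ)) (Finsupp.single (σ.1.comp j) 1) =
            Finsupp.linearCombination ℤ (fun s => Finsupp.single ((W s).pl hK (σ.1.comp j)) (1 : ℤ)) (a l) := by
          intro σ
          rw [Finsupp.linearCombination_single, one_smul, ← Finsupp.mapDomain_comp, Finsupp.linearCombination_apply,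
            Finsupp.mapDomain]
          refine Finsupp.sum_congr fun s _ => ?_
          rw [Finsupp.smul_single, smul_eq_mul, mul_one]
          rfl
        rw [Finset.sum_congr rfl fun σ _ => h3 σ]
        have h4 : ∑ σ : {σ : N →ₐ[k] AlgebraicClosure F // ∀ z, σ (i z) = iF k F z},
            Finsupp.linearCombination ℤ (fun s => Finsupp.single ((W s).pl hK (σ.1.comp j)) (1 : ℤ)) (a l) =
            Finsupp.linearCombination ℤ θ (a l) -
              Finsupp.linearCombination ℤ (fun s => θ s - ∑ σ : {σ : N →ₐ[k] AlgebraicClosure F //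
                ∀ z, σ (i z) = iF k F z}, Finsupp.single ((W s).pl hK (σ.1.comp j)) (1 : ℤ)) (a l) := by
          simp only [Finsupp.linearCombination_apply, Finsupp.sum, smul_sub, Finset.sum_sub_distrib, Finset.smul_sum]
          rw [sub_sub_cancel, Finset.sum_comm]
        rw [h4]
        refine AddSubgroup.sub_mem _ (hθa l) ?_
        rw [Finsupp.linearCombination_apply, Finsupp.sum]
        refine AddSubgroup.sum_mem _ fun s _ => AddSubgroup.zsmul_mem _ ?_ _
        have h5 : θ (evP ξ hξ ((W s).comap (iF k F))) - ∑ᶠ σ : {σ : N →ₐ[k] AlgebraicClosure F //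
            ∀ z, σ (i z) = iF k F z}, Finsupp.single ((W s).pl hK (σ.1.comp j)) 1 ∈ (curve hK).Rat := hθ (W s)
        rw [hW s, finsum_eq_sum_of_fintype] at h5
        exact h5
      exact h2 h1

theorem apply : StmtApply.{u} := apply_of Pool.Agent.Helper67.JD.orb

end Pool.Agent.Helper79.JD
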