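import Mathlib
import Pool.Agent.Helper15.JD.Defs
import Pool.Agent.Helper15.JC.CE
import Pool.Agent.Helper70.JC.Fam
import Pool.Agent.Helper79.JC.Rel
import Pool.Agent.Helper79.JC.Harm
import Pool.Agent.Helper9.JC.Add
import Pool.Agent.Helper67.JC.Dsc
import Pool.Agent.Helper98.JC.SecG
import Pool.Agent.Helper35.JC.Cen

/-!
# JD: the harmonic part for families of embeddings
-/

set_option linter.unusedSectionVars false

namespace Pool.Agent.Helper79.JD

open VC VF Function Polynomial Pool.Agent.Helper21.TO Pool.Agent.Helper21.TB Pool.Agent.Helper15.GT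
open Pool.Agent.Helper15.KP Pool.Agent.Helper98.JC Pool.Agent.Helper79.JC
open Pool.Agent.Helper51.VN (Harm)

universe u

/-- The sum over an invariant family of embeddings. -/
theorem fam_hf {k F A : Type u} [Field k] [IsAlgClosed k] [CharZero k] [Field F] [Algebra k F] [Field A] [Algebra k A]
    [IsAlgClosed A] (iA : F →ₐ[k] A) (halg : ∀ z : A, ∃ p : F[X], p ≠ 0 ∧ p.eval₂ (iA : F →+* A) z = 0)
    {J : Type u} [Fintype J] (σ : J → F →ₐ[k] A)
    (hσ : ∀ e : A ≃ₐ[k] A, (∀ z : F, e (iA z) = iA z) → ∃ π : Equiv.Perm J, ∀ s z, e (σ s z) = σ (π s) z)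
    {u : RPl k F → k} (hu : HF k F u) :
    ∃ v : RPl k F → k, HF k F v ∧ ∀ w : RPl k A, v (w.comap iA) = ∑ s, u (w.comap (σ s)) := by
  classical
  by_cases hne : Nonempty J
  · obtain ⟨v, hv, h⟩ := HF.fam σ iA {e : A ≃ₐ[k] A | ∀ z : F, e (iA z) = iA z}
      (fun z hz => Pool.Agent.Helper70.JC.fixed_range iA halg z fun e he => hz e fun x => DFunLike.congr_fun he x)
      (fun e he => hσ e he) hu
    exact ⟨v, hv, h⟩
  · rw [not_nonempty_iff] at hne
    refine ⟨fun w => 0 * u w, hu.smul 0, fun w => ?_⟩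
    beta_reduce
    rw [zero_mul, Finset.univ_eq_empty, Finset.sum_empty]

theorem harmF : Pool.Agent.Helper15.JD.StmtHarmF.{u} := by
  classical
  intro k K F _ _ _ _ _ _ _ κ Ω M _ _ _ _ _ _ _ _ _ _ _ hK D I _ c J _ σ σ' hσ hperm hrel u hu
  choose vt hvt hvA using fun t => fam_hf D.iA (Pool.Agent.Helper15.JC.alg_iA D) (σ t) (hperm t) hu
  set v : RPl k F → k := fun w => ∑ t, (c t : k) * vt t w with hv
  have hvH : HF k F v := HF.sumJ add Finset.univ (fun t => (c t : k)) vt (fun t _ => hvt t) hu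
  have hvA' : ∀ w : RPl k (AlgebraicClosure M), ∑ t, (c t : k) * ∑ s, u (w.comap (σ t s)) = v (w.comap D.iA) := by
    intro w
    refine Finset.sum_congr rfl fun t _ => ?_
    rw [hvA]
  have hlift : ∀ (x' : RPl Ω (AlgebraicClosure M)) (P : RPl k Ω),
      (cmp (x'.comap (IsScalarTower.toAlgHom Ω M (AlgebraicClosure M))) P).comap D.j = (cmp x' P).comap D.iA := by
    intro x' P
    rw [← cmp_comap, RPl.comap_comap]
    rfl
  have hval : ∀ (x : RPl Ω (AlgebraicClosure M)) (P : RPl k Ω) (t : I) (s : J t),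
      u ((cmp x P).comap (σ t s)) = u ((cmp (rp D.ff (x.pl D.ff (σ' t s))) P).comap D.j) := by
    intro x P t s
    have h2 : rp D.ff (x.pl D.ff (σ' t s)) = x.comap (σ' t s) := by
      ext z
      rfl
    rw [h2, ← cmp_comap, RPl.comap_comap]
    have h3 : σ t s = ((σ' t s).restrictScalars k).comp D.j := by
      ext z
      exact (hσ t s z).symm
    rw [h3]
  have hind : ∀ (x y : RPl Ω M) (P : RPl k Ω), v ((cmp x P).comap D.j) = v ((cmp y P).comap D.j) := by
    intro x y P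
    obtain ⟨x', rfl⟩ := exists_lift (IsScalarTower.toAlgHom Ω M (AlgebraicClosure M)) x
    obtain ⟨y', rfl⟩ := exists_lift (IsScalarTower.toAlgHom Ω M (AlgebraicClosure M)) y
    rw [hlift, hlift, ← hvA', ← hvA']
    have h1 := rat_zero hK D hu P (hrel x' y')
    rw [map_sum] at h1
    rw [← sub_eq_zero, ← Finset.sum_sub_distrib, ← h1]
    refine Finset.sum_congr rfl fun t _ => ?_
    rw [map_smul, map_sum, zsmul_eq_mul, ← mul_sub, ← Finset.sum_sub_distrib]
    congr 1
    refine Finset.sum_congr rfl fun s _ => ?_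
    rw [map_sub, Finsupp.linearCombination_single, Finsupp.linearCombination_single, one_smul, one_smul, hval, hval]
  obtain ⟨ν, hν, hνv⟩ := Pool.Agent.Helper67.JC.dsc_of Pool.Agent.Helper98.JC.sec k K F κ Ω M hK D v hvH hind
  refine ⟨ν, hν, fun w => ?_⟩
  rw [hvA']
  obtain ⟨N, ξ, hξ, φ, hφ, hφv⟩ := hvH
  obtain ⟨G, hG, h⟩ := Pool.Agent.Helper35.JC.gen k K F κ Ω M hK D N ξ hξ
  rw [hφv]
  refine moving hK κ ξ hξ hφ hν G hG (fun w hw => ?_) _
  obtain ⟨x, P, h1, h2⟩ := h w hw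
  rw [← h2, ← hφv, hνv]
  congr 1
  ext z
  have h3 := congrArg RPl.ring h1
  change z ∈ (P.comap (IsScalarTower.toAlgHom k K Ω)).ring ↔ z ∈ (w.comap κ).ring
  rw [h3]

end Pool.Agent.Helper79.JD
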